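import Pool.Agent.L7h51.KM.Stm

set_option autoImplicit false

/-!
# Project KM (helper51): part GR, the greedy matching
-/

namespace Pool.Agent.L7h73.KM

open Set Cardinal Pool.Agent.L7h51.KM

universe u

section

variable {α : Type u} (M : Matroid α) {ι : Type u} [LinearOrder ι] [WellFoundedLT ι] (x : ι → α)

open Classical in
/-- one step: a circuit through `e` which avoids `Z`, if there is one and `e` is not in `Z` -/
noncomputable def pick (e : α) (Z : Set α) : Set α :=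
  if h : e ∉ Z ∧ ∃ C, M.IsCircuit C ∧ e ∈ C ∧ Disjoint C Z then h.2.choose else ∅

theorem pick_cases (e : α) (Z : Set α) :
    pick M e Z = ∅ ∨ (M.IsCircuit (pick M e Z) ∧ e ∈ pick M e Z ∧ Disjoint (pick M e Z) Z) := by
  unfold pick
  split_ifs with h
  · exact Or.inr h.2.choose_spec
  · exact Or.inl rfl

theorem pick_mem {e : α} {Z : Set α} (h : e ∉ Z) (hC : ∃ C, M.IsCircuit C ∧ e ∈ C ∧ Disjoint C Z) :
    e ∈ pick M e Z := by
  unfold pick
  rw [dif_pos ⟨h, hC⟩]
  exact (And.intro h hC).2.choose_spec.2.1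

/-- the greedy sequence -/
noncomputable def gs : ι → Set α :=
  WellFounded.fix (wellFounded_lt (α := ι)) fun i f => pick M (x i) (⋃ j : {j : ι // j < i}, f j.1 j.2)

theorem gs_eq (i : ι) : gs M x i = pick M (x i) (⋃ j : {j : ι // j < i}, gs M x j.1) := by
  unfold gs
  rw [WellFounded.fix_eq]

theorem gs_disj {i j : ι} (h : j < i) : Disjoint (gs M x i) (gs M x j) := by
  rcases pick_cases M (x i) (⋃ j : {j : ι // j < i}, gs M x j.1) with h1 | h1
  · rw [gs_eq, h1]
    exact disjoint_bot_left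
  · rw [← gs_eq] at h1
    exact h1.2.2.mono_right (subset_iUnion (fun j : {j : ι // j < i} => gs M x j.1) ⟨j, h⟩)

theorem gs_circ (i : ι) : gs M x i = ∅ ∨ M.IsCircuit (gs M x i) := by
  rcases pick_cases M (x i) (⋃ j : {j : ι // j < i}, gs M x j.1) with h1 | h1
  · rw [gs_eq]
    exact Or.inl h1
  · rw [← gs_eq] at h1
    exact Or.inr h1.1

/-- the nonempty members with index in `I` -/
def am (I : Set ι) : Set (Set α) := {C | C ≠ ∅ ∧ ∃ i ∈ I, gs M x i = C}

theorem am_matching (I : Set ι) : IsMatching M (am M x I) := by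
  refine ⟨?_, ?_⟩
  · rintro C ⟨h0, i, -, rfl⟩
    exact (gs_circ M x i).resolve_left h0
  · rintro C ⟨h0, i, -, rfl⟩ D ⟨h0', j, -, rfl⟩ hne
    rcases lt_trichotomy i j with h | h | h
    · exact (gs_disj M x h).symm
    · exact absurd (by rw [h]) hne
    · exact gs_disj M x h

theorem am_union (I : Set ι) : ⋃₀ am M x I = ⋃ i ∈ I, gs M x i := by
  ext e
  simp only [mem_sUnion, mem_iUnion, am, mem_setOf_eq]
  constructor
  · rintro ⟨C, ⟨-, i, hi, rfl⟩, he⟩
    exact ⟨i, hi, he⟩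
  · rintro ⟨i, hi, he⟩
    exact ⟨_, ⟨Set.nonempty_iff_ne_empty.1 ⟨e, he⟩, i, hi, rfl⟩, he⟩

end

theorem s_GR : S_GR.{u} := by
  intro α M r hr hE hM
  obtain ⟨b⟩ : Nonempty ((Cardinal.mk M.E).ord.ToType ≃ M.E) :=
    Cardinal.eq.1 (mk_ord_toType (Cardinal.mk M.E))
  set ι := (Cardinal.mk M.E).ord.ToType with hι
  let x : ι → α := fun i => (b i : α)
  have hcard : ∀ i : ι, Cardinal.mk (am M x (Iio i)) < r := by
    intro i
    refine lt_of_le_of_lt ?_ (lt_of_lt_of_le (mk_Iio_toType_ord_lt i) hE)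
    refine (Cardinal.mk_le_mk_of_subset (t := (fun j => gs M x j) '' Iio i) ?_).trans
      Cardinal.mk_image_le
    rintro C ⟨-, j, hj, rfl⟩
    exact ⟨j, hj, rfl⟩
  refine ⟨am M x univ, am_matching M x univ, ?_⟩
  refine Subset.antisymm (sUnion_subset fun C hC => ((am_matching M x univ).1 C hC).subset_ground) ?_
  intro e he
  rw [am_union]
  obtain ⟨i, hi⟩ := b.surjective ⟨e, he⟩
  have hxi : x i = e := congrArg Subtype.val hi
  by_cases h : e ∈ ⋃ j : {j : ι // j < i}, gs M x j.1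
  · obtain ⟨⟨j, hj⟩, h1⟩ := mem_iUnion.1 h
    exact mem_iUnion₂.2 ⟨j, mem_univ j, h1⟩
  · have hU : ⋃₀ am M x (Iio i) = ⋃ j : {j : ι // j < i}, gs M x j.1 := by
      rw [am_union]
      ext a
      simp
    obtain ⟨C, hC, h1, h2⟩ := hM (am M x (Iio i)) (am_matching M x _) (hcard i) e
      ⟨he, by rw [hU]; exact h⟩
    rw [hU] at h2
    refine mem_iUnion₂.2 ⟨i, mem_univ i, ?_⟩
    rw [gs_eq, hxi]
    exact pick_mem M h ⟨C, hC, h1, h2⟩

end Pool.Agent.L7h73.KM
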